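import Pool.Agent.W467.CO.B
import Pool.Agent.W467.LO.E

/-!
# Rank two bundles on `P^n` invariant under a commutative group of matrices

Let `G` be a commutative group acting linearly on `ℂ^{n+1}`, such that `g^* E ≅ E` for all `g` in
`G`; if the rank two bundle `E` is not simple, we assume in addition that these isomorphisms
compose up to constants.  Let `P` be a point and `g` an element of the subgroup of `G` generated
by the elements `h` such that `P` lies in an eigenspace of `h` of dimension at least three.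
Suppose `g P = m P`, and let `l ≠ m` be an eigenvalue of `g` whose eigenspace has dimension at
least three.  If some line joining `P` to this eigenspace has splitting type `(p, q)` with
`(m / l) ^ (p - q) ≠ 1`, then `E` splits.  This is `result`.

Consequences, where `i`, `j`, `k` are different coordinates:

* `three_homologies`: let `n ≥ 3`, and let `G` contain the multiplications of each of the
  coordinates `i`, `j`, `k` by `ζ`.  If `E` does not split, then `ζ ^ (p - q) = 1` for all lines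
  through the coordinate point `i`.
* `two_matrices`: let `n ≥ 4`, and let `G` contain the multiplication of the coordinate `i` by
  `ζ`, and the multiplication of the coordinates `j` and `k` by `ζ`.  If `E` does not split, then
  `ζ ^ (p - q) = 1` for all lines joining the coordinate point `j` to the points where the
  coordinates `j` and `k` vanish.
* `odd_degree`: if `ζ = -1` and the first Chern class of `E` is odd, then `E` splits in both
  cases.
-/

set_option autoImplicit false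

namespace Pool.Agent.Results.MP_745d3a_ag.AbelianSymmetry

open MvPolynomial H960VB

/-- the vectors of polynomials -/
abbrev Vec {n : ℕ} (E : Bundle2 n) : Type := Fin E.a → MvPolynomial (Fin (n + 1)) ℂ

/-- the polynomial `x ↦ p (g x)` -/
noncomputable def subst {n : ℕ} (g : Matrix (Fin (n + 1)) (Fin (n + 1)) ℂ)
    (p : MvPolynomial (Fin (n + 1)) ℂ) : MvPolynomial (Fin (n + 1)) ℂ :=
  aeval (fun s => ∑ t, C (g s t) * X t) p

/-- `Φ` is a lift to `E` of the automorphism `x ↦ g x` of `P^n`, that is, an isomorphism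
`g^* E ≅ E` in terms of sections: it maps sections of `E(d)` to sections of `E(d)`, is additive
and injective, and satisfies `Φ (p G) = (p ∘ g) Φ G` for all homogeneous polynomials `p`. -/
structure IsLift {n : ℕ} (E : Bundle2 n) (g : Matrix (Fin (n + 1)) (Fin (n + 1)) ℂ)
    (Φ : Vec E → Vec E) : Prop where
  sec : ∀ d G, E.IsSection d G → E.IsSection d (Φ G)
  add : ∀ d G G', E.IsSection d G → E.IsSection d G' → Φ (G + G') = Φ G + Φ G'
  semi : ∀ d e p G, E.IsSection d G → HomZ p e → Φ (p • G) = subst g p • Φ G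
  inj : ∀ d G, E.IsSection d G → Φ G = 0 → G = 0

/-- the eigenspace of `g` with eigenvalue `l` -/
def eigen {n : ℕ} (g : Matrix (Fin (n + 1)) (Fin (n + 1)) ℂ) (l : ℂ) :
    Submodule ℂ (Fin (n + 1) → ℂ) :=
  LinearMap.ker (g.mulVecLin - l • LinearMap.id)

/-- `P` lies in an eigenspace of `g` of dimension at least three -/
def InLarge {n : ℕ} (g : Matrix (Fin (n + 1)) (Fin (n + 1)) ℂ) (P : Fin (n + 1) → ℂ) : Prop :=
  ∃ a : ℂ, P ∈ eigen g a ∧ 3 ≤ Module.finrank ℂ (eigen g a)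

/-- `E` is simple: the endomorphisms of `E`, in terms of sections, are the multiplications by
constants -/
def IsSimple {n : ℕ} (E : Bundle2 n) : Prop :=
  ∀ Ψ : ℤ → Vec E → Vec E, (∀ d G, E.IsSection d G → E.IsSection d (Ψ d G)) →
    (∀ d G G', E.IsSection d G → E.IsSection d G' → Ψ d (G + G') = Ψ d G + Ψ d G') →
    (∀ d e (p : MvPolynomial (Fin (n + 1)) ℂ) G, E.IsSection d G → HomZ p e →
      Ψ (d + e) (p • G) = p • Ψ d G) →
    ∃ c : ℂ, ∀ d G, E.IsSection d G → Ψ d G = c • G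

/-- the commutative group `G`, which acts by the matrices `ρ g`, is a group of symmetries of `E`:
every `g` in `G` has a lift `Φ g` to `E`, and either `E` is simple, or the lifts compose up to
nonzero constants -/
structure IsSymmetry {n : ℕ} (E : Bundle2 n) {G : Type} [CommGroup G]
    (ρ : G →* Matrix (Fin (n + 1)) (Fin (n + 1)) ℂ) (Φ : G → Vec E → Vec E) : Prop where
  lift : ∀ g, IsLift E (ρ g) (Φ g)
  mul : IsSimple E ∨ ∀ g h, ∃ c : ℂ, c ≠ 0 ∧
    ∀ d s, E.IsSection d s → Φ (g * h) s = c • Φ g (Φ h s)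

theorem subst_eq {n : ℕ} (g : Matrix (Fin (n + 1)) (Fin (n + 1)) ℂ)
    (p : MvPolynomial (Fin (n + 1)) ℂ) : subst g p = lsub g.mulVecLin p := by
  unfold subst lsub
  congr 2
  funext s
  refine Finset.sum_congr rfl fun t _ => ?_
  congr 2
  rw [Matrix.mulVecLin_apply, Matrix.mulVec_single_one]
  rfl

/-- the lift as an operator in the sense of the file on linear symmetries -/
def gop {n : ℕ} {E : Bundle2 n} {g : Matrix (Fin (n + 1)) (Fin (n + 1)) ℂ}
    {Φ : Vec E → Vec E} (h : IsLift E g Φ) : Pool.Agent.W467.FO.GOp E g.mulVecLin where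
  D := Φ
  sec := fun d G hG => Pool.Agent.W615.sec_iff.2 (h.sec d G (Pool.Agent.W615.sec_iff.1 hG))
  add := fun d G G' hG hG' =>
    h.add d G G' (Pool.Agent.W615.sec_iff.1 hG) (Pool.Agent.W615.sec_iff.1 hG')
  mul := by
    intro d e p G hG hp
    rw [← subst_eq]
    exact h.semi d e p G (Pool.Agent.W615.sec_iff.1 hG) hp
  inj := by
    intro d G hG h0 i
    have h1 := h.inj d G (Pool.Agent.W615.sec_iff.1 hG) (funext h0)
    rw [h1]
    rfl

theorem lin_injective {n : ℕ} {E : Bundle2 n} {g : Matrix (Fin (n + 1)) (Fin (n + 1)) ℂ}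
    {Φ : Vec E → Vec E} (h : IsLift E g Φ) (d : ℤ) : Function.Injective ((gop h).lin d) := by
  rw [← LinearMap.ker_eq_bot, LinearMap.ker_eq_bot']
  intro r hr
  apply Subtype.ext
  exact h.inj d r.1 (Pool.Agent.W615.sec_iff.1 r.2) (congrArg Subtype.val hr)

theorem lift_surj {n : ℕ} {E : Bundle2 n} {g : Matrix (Fin (n + 1)) (Fin (n + 1)) ℂ}
    {Φ : Vec E → Vec E} (h : IsLift E g Φ) {d : ℤ} {s : Vec E} (hs : E.IsSection d s) :
    ∃ t, E.IsSection d t ∧ Φ t = s := by
  obtain ⟨t, ht⟩ := LinearMap.surjective_of_injective (lin_injective h d)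
    ⟨s, Pool.Agent.W615.sec_iff.2 hs⟩
  exact ⟨t.1, Pool.Agent.W615.sec_iff.1 t.2, congrArg Subtype.val ht⟩

theorem lift_inj {n : ℕ} {E : Bundle2 n} {g : Matrix (Fin (n + 1)) (Fin (n + 1)) ℂ}
    {Φ : Vec E → Vec E} (h : IsLift E g Φ) {d : ℤ} {s t : Vec E} (hs : E.IsSection d s)
    (ht : E.IsSection d t) (hst : Φ s = Φ t) : s = t := by
  have h1 : (gop h).lin d ⟨s, Pool.Agent.W615.sec_iff.2 hs⟩ =
      (gop h).lin d ⟨t, Pool.Agent.W615.sec_iff.2 ht⟩ := Subtype.ext hst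
  exact congrArg Subtype.val (lin_injective h d h1)

theorem isSection_add {n : ℕ} {E : Bundle2 n} {d : ℤ} {s t : Vec E} (hs : E.IsSection d s)
    (ht : E.IsSection d t) : E.IsSection d (s + t) :=
  Pool.Agent.W615.sec_iff.1 (Pool.Agent.W615.sec_add (Pool.Agent.W615.sec_iff.2 hs)
    (Pool.Agent.W615.sec_iff.2 ht))

theorem isSection_mul {n : ℕ} {E : Bundle2 n} {d e : ℤ} {p : MvPolynomial (Fin (n + 1)) ℂ}
    {s : Vec E} (hp : HomZ p e) (hs : E.IsSection d s) : E.IsSection (d + e) (p • s) := by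
  have h := Pool.Agent.W615.sec_mul hp (Pool.Agent.W615.sec_iff.2 hs)
  rw [add_comm e d] at h
  exact Pool.Agent.W615.sec_iff.1 h

theorem subst_subst {n : ℕ} (g h : Matrix (Fin (n + 1)) (Fin (n + 1)) ℂ)
    (p : MvPolynomial (Fin (n + 1)) ℂ) : subst g (subst h p) = subst (h * g) p := by
  rw [subst_eq, subst_eq, subst_eq, Pool.Agent.W615.lsub_comp, Matrix.mulVecLin_mul]

theorem subst_one {n : ℕ} (p : MvPolynomial (Fin (n + 1)) ℂ) : subst 1 p = p := by
  rw [subst_eq, Matrix.mulVecLin_one]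
  apply MvPolynomial.funext
  intro x
  rw [eval_lsub]
  rfl

theorem homZ_subst {n : ℕ} (g : Matrix (Fin (n + 1)) (Fin (n + 1)) ℂ)
    {p : MvPolynomial (Fin (n + 1)) ℂ} {e : ℤ} (hp : HomZ p e) : HomZ (subst g p) e := by
  rw [subst_eq]
  exact homZ_lsub _ hp

/-- for a simple bundle the lifts compose up to nonzero constants -/
theorem simple_action {n : ℕ} {E : Bundle2 n} (hE : IsSimple E) {G : Type} [CommGroup G]
    (ρ : G →* Matrix (Fin (n + 1)) (Fin (n + 1)) ℂ) (Φ : G → Vec E → Vec E)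
    (hΦ : ∀ g, IsLift E (ρ g) (Φ g)) (g h : G) : ∃ c : ℂ, c ≠ 0 ∧
    ∀ d s, E.IsSection d s → Φ (g * h) s = c • Φ g (Φ h s) := by
  classical
  let Ψ : ℤ → Vec E → Vec E := fun d s =>
    if H : ∃ t, E.IsSection d t ∧ Φ (g * h) t = s then Φ g (Φ h H.choose) else 0
  have key : ∀ d t, E.IsSection d t → Ψ d (Φ (g * h) t) = Φ g (Φ h t) := by
    intro d t ht
    have H : ∃ t', E.IsSection d t' ∧ Φ (g * h) t' = Φ (g * h) t := ⟨t, ht, rfl⟩
    show (if H : ∃ t', E.IsSection d t' ∧ Φ (g * h) t' = Φ (g * h) t then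
      Φ g (Φ h H.choose) else 0) = _
    rw [dif_pos H, lift_inj (hΦ (g * h)) H.choose_spec.1 ht H.choose_spec.2]
  obtain ⟨c, hc⟩ := hE Ψ (by
    intro d s hs
    obtain ⟨t, ht, rfl⟩ := lift_surj (hΦ (g * h)) hs
    rw [key d t ht]
    exact (hΦ g).sec d _ ((hΦ h).sec d t ht)) (by
    intro d s s' hs hs'
    obtain ⟨t, ht, rfl⟩ := lift_surj (hΦ (g * h)) hs
    obtain ⟨t', ht', rfl⟩ := lift_surj (hΦ (g * h)) hs'
    rw [← (hΦ (g * h)).add d t t' ht ht', key d t ht, key d t' ht',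
      key d _ (isSection_add ht ht'), (hΦ h).add d t t' ht ht',
      (hΦ g).add d _ _ ((hΦ h).sec d t ht) ((hΦ h).sec d t' ht')]) (by
    intro d e p s hs hp
    obtain ⟨t, ht, rfl⟩ := lift_surj (hΦ (g * h)) hs
    have h1 := (hΦ (g * h)).semi d e (subst (ρ (g * h)⁻¹) p) t ht (homZ_subst _ hp)
    rw [subst_subst, ← map_mul, inv_mul_cancel, map_one, subst_one] at h1
    rw [← h1, key (d + e) _ (isSection_mul (homZ_subst _ hp) ht), key d t ht,
      (hΦ h).semi d e _ t ht (homZ_subst _ hp),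
      (hΦ g).semi d e _ _ ((hΦ h).sec d t ht) (homZ_subst _ (homZ_subst _ hp)),
      subst_subst, subst_subst, ← map_mul, ← map_mul, mul_comm h g, inv_mul_cancel, map_one,
      subst_one])
  have hB : ∀ d t, E.IsSection d t → Φ g (Φ h t) = c • Φ (g * h) t := by
    intro d t ht
    rw [← key d t ht]
    exact hc d _ ((hΦ (g * h)).sec d t ht)
  by_cases hc0 : c = 0
  · refine ⟨1, one_ne_zero, fun d s hs => ?_⟩
    have h1 := hB d s hs
    rw [hc0, zero_smul] at h1
    have h2 : Φ h s = 0 := (hΦ g).inj d _ ((hΦ h).sec d s hs) h1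
    have h3 : s = 0 := (hΦ h).inj d s hs h2
    have h4 : ∀ k, Φ k 0 = 0 := by
      intro k
      have h5 := (hΦ k).add d 0 0 (h3 ▸ hs) (h3 ▸ hs)
      rw [add_zero] at h5
      exact left_eq_add.1 h5
    rw [h3, h4, h4, h4, smul_zero]
  · refine ⟨c⁻¹, inv_ne_zero hc0, fun d s hs => ?_⟩
    rw [hB d s hs, smul_smul, inv_mul_cancel₀ hc0, one_smul]

theorem result {n : ℕ} (E : Bundle2 n) {G : Type} [CommGroup G]
    (ρ : G →* Matrix (Fin (n + 1)) (Fin (n + 1)) ℂ) (Φ : G → Vec E → Vec E)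
    (hΦ : IsSymmetry E ρ Φ)
    -- the point `P` and the element `g`
    (P : Fin (n + 1) → ℂ) (hP0 : P ≠ 0) (g : G)
    (hg : g ∈ Subgroup.closure {h : G | InLarge (ρ h) P})
    -- a line joining `P` to another large eigenspace of `g`
    (l m : ℂ) (hlm : m ≠ l) (hP : P ∈ eigen (ρ g) m)
    (hl : 3 ≤ Module.finrank ℂ (eigen (ρ g) l)) (Q : Fin (n + 1) → ℂ) (hQ0 : Q ≠ 0)
    (hQ : Q ∈ eigen (ρ g) l) (p q : ℤ) (hs : E.SplitsOn P Q p q)
    (hne : (m / l) ^ (p - q) ≠ 1) : E.Splits := by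
  have hmul : ∀ a b, ∃ c : ℂ, c ≠ 0 ∧
      ∀ d s, E.IsSection d s → Φ (a * b) s = c • Φ a (Φ b s) := by
    rcases hΦ.mul with h | h
    · exact simple_action h ρ Φ hΦ.lift
    · exact h
  have hinj : ∀ g : G, Function.Injective (ρ g).mulVecLin := by
    intro g x y h
    exact Matrix.mulVec_injective_iff_isUnit.2 ((Group.isUnit g).map ρ) h
  have he : ∀ {A : Matrix (Fin (n + 1)) (Fin (n + 1)) ℂ} {k : ℂ} {R : Fin (n + 1) → ℂ},
      R ∈ eigen A k ↔ A.mulVecLin R = k • R := by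
    intro A k R
    unfold eigen
    rw [LinearMap.mem_ker, LinearMap.sub_apply, LinearMap.smul_apply, LinearMap.id_apply,
      sub_eq_zero]
  refine Pool.Agent.W467.CO.main (T := fun g => (ρ g).mulVecLin) (fun g => gop (hΦ.lift g))
    hinj ?_ ?_ ?_ hP0 (g := g) ?_ hlm (he.1 hP) hl hQ0 (he.1 hQ) hs hne
  · show (ρ 1).mulVecLin = LinearMap.id
    rw [map_one, Matrix.mulVecLin_one]
  · intro a b
    show (ρ (a * b)).mulVecLin = (ρ a).mulVecLin ∘ₗ (ρ b).mulVecLin
    rw [map_mul, Matrix.mulVecLin_mul]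
  · intro a b
    obtain ⟨c, hc0, hc⟩ := hmul a b
    refine ⟨c, hc0, fun d => ?_⟩
    apply LinearMap.ext
    intro s
    apply Subtype.ext
    exact hc d s.1 (Pool.Agent.W615.sec_iff.1 s.2)
  · refine Subgroup.closure_mono ?_ hg
    rintro h ⟨a, ha, h3⟩
    exact ⟨a, he.1 ha, h3⟩

/-! ### Consequences -/

/-- the multiplication of the coordinates in `S` by `ζ` -/
def scale {n : ℕ} (ζ : ℂ) (S : Finset (Fin (n + 1))) :
    Matrix (Fin (n + 1)) (Fin (n + 1)) ℂ :=
  Matrix.diagonal fun s => if s ∈ S then ζ else 1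

/-- the first Chern class of `E`, which is `a + b` for the splitting type `(a, b)` of `E` on any
line, is odd -/
def OddDegree {n : ℕ} (E : Bundle2 n) : Prop :=
  ∃ A B : Fin (n + 1) → ℂ, LinearIndependent ℂ ![A, B] ∧ ∃ a b : ℤ, E.SplitsOn A B a b ∧
    Odd (a + b)

theorem mem_scale {n : ℕ} {ζ a : ℂ} {S : Finset (Fin (n + 1))} {R : Fin (n + 1) → ℂ}
    (h : ∀ s, (if s ∈ S then ζ else 1) * R s = a * R s) : R ∈ eigen (scale ζ S) a := by
  unfold eigen
  rw [LinearMap.mem_ker, LinearMap.sub_apply, LinearMap.smul_apply, LinearMap.id_apply,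
    sub_eq_zero, Matrix.mulVecLin_apply]
  funext s
  unfold scale
  rw [Matrix.mulVec_diagonal]
  exact h s

theorem dim_scale {n : ℕ} {ζ a : ℂ} {S : Finset (Fin (n + 1))} (T : Finset (Fin (n + 1)))
    (h : ∀ s ∈ T, (if s ∈ S then ζ else 1) = a) :
    T.card ≤ Module.finrank ℂ (eigen (scale ζ S) a) := by
  let v : T → eigen (scale ζ S) a := fun s => ⟨Pi.single s.1 1, by
    refine mem_scale fun t => ?_
    by_cases ht : t = s.1
    · rw [ht, h s.1 s.2]
    · rw [Pi.single_eq_of_ne ht, mul_zero, mul_zero]⟩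
  have hv : LinearIndependent ℂ v := by
    refine LinearIndependent.of_comp (Submodule.subtype _) ?_
    have h1 := (Pi.basisFun ℂ (Fin (n + 1))).linearIndependent.comp (fun s : T => s.1)
      Subtype.val_injective
    have h2 : (Submodule.subtype (eigen (scale ζ S) a)) ∘ v =
        (Pi.basisFun ℂ (Fin (n + 1))) ∘ fun s : T => s.1 := by
      funext s
      show Pi.single s.1 1 = Pi.basisFun ℂ (Fin (n + 1)) s.1
      rw [Pi.basisFun_apply]
    rw [h2]
    exact h1
  have h2 := hv.fintype_card_le_finrank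
  rwa [Fintype.card_coe] at h2

theorem scale_mul {n : ℕ} (ζ : ℂ) {S T : Finset (Fin (n + 1))} (h : Disjoint S T) :
    (scale ζ S * scale ζ T : Matrix (Fin (n + 1)) (Fin (n + 1)) ℂ) = scale ζ (S ∪ T) := by
  unfold scale
  rw [Matrix.diagonal_mul_diagonal]
  congr 1
  funext s
  have h1 : s ∈ S → s ∉ T := fun hs => Finset.disjoint_left.1 h hs
  by_cases hs : s ∈ S
  · simp [hs, h1 hs]
  · simp [hs]

/-- `e_i` lies in the large eigenspace of `scale ζ S` with eigenvalue `1` if `i ∉ S` -/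
theorem large_one {n : ℕ} (ζ : ℂ) {S : Finset (Fin (n + 1))} (hS : S.card + 3 ≤ n + 1)
    {i : Fin (n + 1)} (hi : i ∉ S) : InLarge (scale ζ S) (Pi.single i 1) := by
  refine ⟨1, mem_scale fun s => ?_, ?_⟩
  · by_cases hs : s = i
    · rw [hs, if_neg hi]
    · rw [Pi.single_eq_of_ne hs, mul_zero, mul_zero]
  · refine le_trans ?_ (dim_scale Sᶜ fun s hs => if_neg (Finset.mem_compl.1 hs))
    rw [Finset.card_compl, Fintype.card_fin]
    omega

/-- `e_i` lies in the large eigenspace of `scale ζ S` with eigenvalue `ζ` if `i ∈ S` -/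
theorem large_zeta {n : ℕ} (ζ : ℂ) {S : Finset (Fin (n + 1))} (hS : 3 ≤ S.card)
    {i : Fin (n + 1)} (hi : i ∈ S) : InLarge (scale ζ S) (Pi.single i 1) := by
  refine ⟨ζ, mem_scale fun s => ?_, ?_⟩
  · by_cases hs : s = i
    · rw [hs, if_pos hi]
    · rw [Pi.single_eq_of_ne hs, mul_zero, mul_zero]
  · exact le_trans hS (dim_scale S fun s hs => if_pos hs)

theorem single_ne {n : ℕ} (i : Fin (n + 1)) : (Pi.single i 1 : Fin (n + 1) → ℂ) ≠ 0 := by
  intro h
  have := congrFun h i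
  rw [Pi.single_eq_same, Pi.zero_apply] at this
  exact one_ne_zero this

theorem three_homologies {n : ℕ} (E : Bundle2 n) {G : Type} [CommGroup G]
    (ρ : G →* Matrix (Fin (n + 1)) (Fin (n + 1)) ℂ) (Φ : G → Vec E → Vec E)
    (hΦ : IsSymmetry E ρ Φ) (hn : 3 ≤ n) (ζ : ℂ) (i j k : Fin (n + 1)) (hij : i ≠ j)
    (hik : i ≠ k) (hjk : j ≠ k) (h₁ : ∃ g, ρ g = scale ζ {i}) (h₂ : ∃ g, ρ g = scale ζ {j})
    (h₃ : ∃ g, ρ g = scale ζ {k}) (Q : Fin (n + 1) → ℂ) (hQ0 : Q ≠ 0) (hQi : Q i = 0)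
    (p q : ℤ) (hs : E.SplitsOn (Pi.single i 1) Q p q) (hne : ζ ^ (p - q) ≠ 1) : E.Splits := by
  obtain ⟨g₁, h₁⟩ := h₁
  obtain ⟨g₂, h₂⟩ := h₂
  obtain ⟨g₃, h₃⟩ := h₃
  have hζ : ζ ≠ 1 := fun h => hne (by rw [h, one_zpow])
  have m₂ : g₂ ∈ Subgroup.closure {h : G | InLarge (ρ h) (Pi.single i 1)} := by
    refine Subgroup.subset_closure ?_
    show InLarge (ρ g₂) (Pi.single i 1)
    rw [h₂]
    refine large_one ζ ?_ (by rwa [Finset.mem_singleton])
    rw [Finset.card_singleton]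
    omega
  have m₃ : g₃ ∈ Subgroup.closure {h : G | InLarge (ρ h) (Pi.single i 1)} := by
    refine Subgroup.subset_closure ?_
    show InLarge (ρ g₃) (Pi.single i 1)
    rw [h₃]
    refine large_one ζ ?_ (by rwa [Finset.mem_singleton])
    rw [Finset.card_singleton]
    omega
  have m₄ : g₁ * g₂ * g₃ ∈ Subgroup.closure {h : G | InLarge (ρ h) (Pi.single i 1)} := by
    refine Subgroup.subset_closure ?_
    show InLarge (ρ (g₁ * g₂ * g₃)) (Pi.single i 1)
    rw [map_mul, map_mul, h₁, h₂, h₃, scale_mul ζ (by simpa using hij),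
      scale_mul ζ (by simp [hik.symm, hjk.symm])]
    refine large_zeta ζ ?_ (by simp)
    have : ({i} ∪ {j} ∪ {k} : Finset (Fin (n + 1))) = {i, j, k} := by
      ext x
      simp only [Finset.mem_union, Finset.mem_singleton, Finset.mem_insert]
      tauto
    rw [this, Finset.card_eq_three.2 ⟨i, j, k, hij, hik, hjk, rfl⟩]
  have m₁ : g₁ ∈ Subgroup.closure {h : G | InLarge (ρ h) (Pi.single i 1)} := by
    have : g₁ = g₁ * g₂ * g₃ * g₃⁻¹ * g₂⁻¹ := by group
    rw [this]
    exact mul_mem (mul_mem m₄ (inv_mem m₃)) (inv_mem m₂)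
  refine result E ρ Φ hΦ (Pi.single i 1) (single_ne i) g₁ m₁ 1 ζ hζ ?_ ?_ Q hQ0 ?_ p q hs ?_
  · rw [h₁]
    refine mem_scale fun s => ?_
    by_cases hs : s = i
    · rw [hs, if_pos (by simp)]
    · rw [Pi.single_eq_of_ne hs, mul_zero, mul_zero]
  · rw [h₁]
    refine le_trans ?_ (dim_scale {i}ᶜ fun s hs => if_neg (Finset.mem_compl.1 hs))
    rw [Finset.card_compl, Fintype.card_fin, Finset.card_singleton]
    omega
  · rw [h₁]
    refine mem_scale fun s => ?_
    by_cases hs : s = i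
    · rw [hs, hQi, mul_zero, mul_zero]
    · rw [if_neg (by simpa using hs)]
  · rwa [div_one]

theorem two_matrices {n : ℕ} (E : Bundle2 n) {G : Type} [CommGroup G]
    (ρ : G →* Matrix (Fin (n + 1)) (Fin (n + 1)) ℂ) (Φ : G → Vec E → Vec E)
    (hΦ : IsSymmetry E ρ Φ) (hn : 4 ≤ n) (ζ : ℂ) (i j k : Fin (n + 1)) (hij : i ≠ j)
    (hik : i ≠ k) (hjk : j ≠ k) (h₁ : ∃ g, ρ g = scale ζ {i}) (h₂ : ∃ g, ρ g = scale ζ {j, k})
    (Q : Fin (n + 1) → ℂ) (hQ0 : Q ≠ 0) (hQj : Q j = 0) (hQk : Q k = 0)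
    (p q : ℤ) (hs : E.SplitsOn (Pi.single j 1) Q p q) (hne : ζ ^ (p - q) ≠ 1) : E.Splits := by
  obtain ⟨g₁, h₁⟩ := h₁
  obtain ⟨g₂, h₂⟩ := h₂
  have hζ : ζ ≠ 1 := fun h => hne (by rw [h, one_zpow])
  have m₁ : g₁ ∈ Subgroup.closure {h : G | InLarge (ρ h) (Pi.single j 1)} := by
    refine Subgroup.subset_closure ?_
    show InLarge (ρ g₁) (Pi.single j 1)
    rw [h₁]
    refine large_one ζ ?_ (by simpa using hij.symm)
    rw [Finset.card_singleton]
    omega
  have m₃ : g₁ * g₂ ∈ Subgroup.closure {h : G | InLarge (ρ h) (Pi.single j 1)} := by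
    refine Subgroup.subset_closure ?_
    show InLarge (ρ (g₁ * g₂)) (Pi.single j 1)
    rw [map_mul, h₁, h₂, scale_mul ζ (by simp [hij, hik])]
    refine large_zeta ζ ?_ (by simp)
    have : ({i} ∪ {j, k} : Finset (Fin (n + 1))) = {i, j, k} := by
      ext x
      simp only [Finset.mem_union, Finset.mem_singleton, Finset.mem_insert]
    rw [this, Finset.card_eq_three.2 ⟨i, j, k, hij, hik, hjk, rfl⟩]
  have m₂ : g₂ ∈ Subgroup.closure {h : G | InLarge (ρ h) (Pi.single j 1)} := by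
    have : g₂ = g₁⁻¹ * (g₁ * g₂) := by group
    rw [this]
    exact mul_mem (inv_mem m₁) m₃
  refine result E ρ Φ hΦ (Pi.single j 1) (single_ne j) g₂ m₂ 1 ζ hζ ?_ ?_ Q hQ0 ?_ p q hs ?_
  · rw [h₂]
    refine mem_scale fun s => ?_
    by_cases hs : s = j
    · rw [hs, if_pos (by simp)]
    · rw [Pi.single_eq_of_ne hs, mul_zero, mul_zero]
  · rw [h₂]
    refine le_trans ?_ (dim_scale {j, k}ᶜ fun s hs => if_neg (Finset.mem_compl.1 hs))
    rw [Finset.card_compl, Fintype.card_fin, Finset.card_pair hjk]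
    omega
  · rw [h₂]
    refine mem_scale fun s => ?_
    by_cases hs : s = j
    · rw [hs, hQj, mul_zero, mul_zero]
    by_cases hs' : s = k
    · rw [hs', hQk, mul_zero, mul_zero]
    · rw [if_neg (by simp [hs, hs'])]
  · rwa [div_one]

theorem single_li {n : ℕ} {i j : Fin (n + 1)} (hij : i ≠ j) :
    LinearIndependent ℂ ![(Pi.single i 1 : Fin (n + 1) → ℂ), Pi.single j 1] := by
  rw [LinearIndependent.pair_iff]
  intro a b h
  have h1 := congrFun h i
  have h2 := congrFun h j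
  simp [hij] at h1
  simp [hij.symm] at h2
  exact ⟨h1, h2⟩

/-- if the first Chern class is odd, then all lines have odd types -/
theorem odd_type {n : ℕ} (hn : 1 ≤ n) {E : Bundle2 n} (h : OddDegree E)
    {P Q : Fin (n + 1) → ℂ} (hPQ : LinearIndependent ℂ ![P, Q]) :
    ∃ p q : ℤ, E.SplitsOn P Q p q ∧ ((-1 : ℂ) ^ (p - q) ≠ 1) := by
  obtain ⟨W⟩ := H938TB.exists_wedge hn (Pool.Agent.W615.triv E)
  obtain ⟨A, B, hAB, a, b, hs, hodd⟩ := h
  have h1 := Pool.Agent.W467.FX.kappa_of_line W hAB hs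
  obtain ⟨p, q, hpq⟩ := Pool.Agent.H106R3.VB.splitsOn_exists E hPQ
  have h2 := Pool.Agent.W467.FX.kappa_of_line W hPQ hpq
  refine ⟨p, q, hpq, ?_⟩
  have h3 : Odd (p - q) := by
    rw [Int.odd_sub]
    rw [← h1, h2, Int.odd_add] at hodd
    exact hodd
  rw [h3.neg_one_zpow]
  norm_num

theorem odd_degree {n : ℕ} (E : Bundle2 n) {G : Type} [CommGroup G]
    (ρ : G →* Matrix (Fin (n + 1)) (Fin (n + 1)) ℂ) (Φ : G → Vec E → Vec E)
    (hΦ : IsSymmetry E ρ Φ) (hodd : OddDegree E) (i j k : Fin (n + 1)) (hij : i ≠ j)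
    (hik : i ≠ k) (hjk : j ≠ k)
    (h : (3 ≤ n ∧ (∃ g, ρ g = scale (-1) {i}) ∧ (∃ g, ρ g = scale (-1) {j}) ∧
        ∃ g, ρ g = scale (-1) {k}) ∨
      (4 ≤ n ∧ (∃ g, ρ g = scale (-1) {i}) ∧ ∃ g, ρ g = scale (-1) {j, k})) : E.Splits := by
  rcases h with ⟨hn, h₁, h₂, h₃⟩ | ⟨hn, h₁, h₂⟩
  · obtain ⟨p, q, hs, hne⟩ := odd_type (by omega) hodd (single_li hij)
    exact three_homologies E ρ Φ hΦ hn (-1) i j k hij hik hjk h₁ h₂ h₃ (Pi.single j 1)
      (single_ne j) (Pi.single_eq_of_ne hij 1) p q hs hne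
  · obtain ⟨p, q, hs, hne⟩ := odd_type (by omega) hodd (single_li hij.symm)
    exact two_matrices E ρ Φ hΦ hn (-1) i j k hij hik hjk h₁ h₂ (Pi.single i 1) (single_ne i)
      (Pi.single_eq_of_ne hij.symm 1) (Pi.single_eq_of_ne hik.symm 1) p q hs hne

end Pool.Agent.Results.MP_745d3a_ag.AbelianSymmetry
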