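import Pool.Agent.W615.GA2

/-!
# The action of an infinitesimal symmetry on the fibres of an indecomposable bundle of rank two

Let `n ≥ 4`, let `E` be a bundle of rank two on `P^n` which does not split, and let the linear
vector field `x ↦ N x` lift to `E`.  Let `z` be an eigenvector of `N` whose eigenvalue lies strictly
inside the segment joining two eigenvalues `α ≠ β` of `N` (an intermediate fixed point).  The lift
acts on the fibre of `E` at `z`; the difference of its two eigenvalues is `q (α - β)` with `q`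
rational, `|q| ≥ 1`.
-/

set_option autoImplicit false

namespace Pool.Agent.Results.MP_745d3a_ag.FibreGap

open MvPolynomial H960VB

/-- the vectors of polynomials -/
abbrev Vec {n : ℕ} (E : Bundle2 n) : Type := Fin E.a → MvPolynomial (Fin (n + 1)) ℂ

/-- the derivative of `p` in the direction of the linear vector field `x ↦ N x` -/
noncomputable def along {n : ℕ} (N : Matrix (Fin (n + 1)) (Fin (n + 1)) ℂ)
    (p : MvPolynomial (Fin (n + 1)) ℂ) : MvPolynomial (Fin (n + 1)) ℂ :=
  ∑ s, pderiv s p * (∑ t, C (N s t) * X t)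

/-- `D` is a lift to `E` of the vector field `x ↦ N x`: an operator on the sections of the twists
`E(d)`, `d ∈ ℤ`, which preserves `d`, is additive and satisfies
`D (p G) = N(p) G + p D G` for all homogeneous polynomials `p`. -/
structure IsLift {n : ℕ} (E : Bundle2 n) (N : Matrix (Fin (n + 1)) (Fin (n + 1)) ℂ)
    (D : Vec E → Vec E) : Prop where
  sec : ∀ d G, E.IsSection d G → E.IsSection d (D G)
  add : ∀ d G G', E.IsSection d G → E.IsSection d G' → D (G + G') = D G + D G'
  leib : ∀ d e p G, E.IsSection d G → HomZ p e → D (p • G) = along N p • G + p • D G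

theorem result {n : ℕ} (hn : 4 ≤ n) (E : Bundle2 n) (hE : ¬ E.Splits)
    (N : Matrix (Fin (n + 1)) (Fin (n + 1)) ℂ) (D : Vec E → Vec E) (hD : IsLift E N D)
    -- two eigenvalues of the vector field
    (α β : ℂ) (hαβ : α ≠ β) (hα : ∃ x : Fin (n + 1) → ℂ, x ≠ 0 ∧ N.mulVec x = α • x)
    (hβ : ∃ x : Fin (n + 1) → ℂ, x ≠ 0 ∧ N.mulVec x = β • x)
    -- an eigenvector whose eigenvalue is strictly between them
    (z : Fin (n + 1) → ℂ) (hz0 : z ≠ 0) (v : ℂ) (hz : N.mulVec z = v • z)
    (t : ℝ) (ht0 : 0 < t) (ht1 : t < 1) (hv : v = α + t * (β - α))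
    -- two sections which form a basis of the fibre at `z`, in which the lift is triangular there
    (d d' : ℤ) (G G' : Vec E) (hG : E.IsSection d G) (hG' : E.IsSection d' G')
    (hli : LinearIndependent ℂ ![evv G z, evv G' z])
    (μ μ' ν : ℂ) (hμ : evv (D G) z = μ • evv G z)
    (hμ' : evv (D G') z = μ' • evv G' z + ν • evv G z) :
    -- the eigenvalues `μ - d v` and `μ' - d' v` of the lift on the fibre at `z`
    ∃ q : ℚ, 1 ≤ |q| ∧ (μ - d * v) - (μ' - d' * v) = q * (α - β) := by
  obtain ⟨x, hx0, hx⟩ := hα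
  obtain ⟨y, hy0, hy⟩ := hβ
  exact Pool.Agent.W615.gap_main hn hE (Pool.Agent.W615.mkOp D hD.sec hD.add hD.leib) hz0 hz
    (Pool.Agent.W615.sec_of_isSection hG) (Pool.Agent.W615.sec_of_isSection hG')
    hμ hμ' hli hαβ hx0 hx hy0 hy ht0 ht1 hv

end Pool.Agent.Results.MP_745d3a_ag.FibreGap
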