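import Pool.Agent.W467.LO.E

/-!
# Linear symmetries of indecomposable rank two bundles with a large eigenspace

Let `E` be a rank two bundle on `P^n` which does not split and `g` an invertible matrix with
`g^* E ≅ E`.  Let `l` be an eigenvalue of `g` whose eigenspace has dimension at least three, and
`m` another eigenvalue.  Then

* the splitting types of all lines joining the eigenspaces of `m` and `l` are congruent modulo the
  order of `m / l`;
* through every point of the eigenspace of `m` there is such a joining line of type `(p, q)` with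
  `|p - q| + |p₀ - q₀| ≥ 2 ord (m / l)`, where `(p₀, q₀)` is the type of any joining line;
* `m / l` is a root of unity of order at most `c₁ (E (d))`, for every `d` such that `E (d)` is
  generated by its sections.
-/

set_option autoImplicit false

namespace Pool.Agent.Results.MP_745d3a_ag.FiniteSymmetry

open MvPolynomial H960VB

/-- the vectors of polynomials -/
abbrev Vec {n : ℕ} (E : Bundle2 n) : Type := Fin E.a → MvPolynomial (Fin (n + 1)) ℂ

/-- the polynomial `x ↦ p (g x)` -/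
noncomputable def subst {n : ℕ} (g : Matrix (Fin (n + 1)) (Fin (n + 1)) ℂ)
    (p : MvPolynomial (Fin (n + 1)) ℂ) : MvPolynomial (Fin (n + 1)) ℂ :=
  aeval (fun s => ∑ t, C (g s t) * X t) p

/-- `Φ` is a lift to `E` of the automorphism `x ↦ g x` of `P^n`, that is, an isomorphism
`g^* E ≅ E` in terms of sections: it maps sections of `E(d)` to sections of `E(d)`, is additive
and injective, and satisfies `Φ (p G) = (p ∘ g) Φ G` for all homogeneous polynomials `p`. -/
structure IsLift {n : ℕ} (E : Bundle2 n) (g : Matrix (Fin (n + 1)) (Fin (n + 1)) ℂ)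
    (Φ : Vec E → Vec E) : Prop where
  sec : ∀ d G, E.IsSection d G → E.IsSection d (Φ G)
  add : ∀ d G G', E.IsSection d G → E.IsSection d G' → Φ (G + G') = Φ G + Φ G'
  semi : ∀ d e p G, E.IsSection d G → HomZ p e → Φ (p • G) = subst g p • Φ G
  inj : ∀ d G, E.IsSection d G → Φ G = 0 → G = 0

/-- the eigenspace of `g` with eigenvalue `l` -/
def eigen {n : ℕ} (g : Matrix (Fin (n + 1)) (Fin (n + 1)) ℂ) (l : ℂ) :
    Submodule ℂ (Fin (n + 1) → ℂ) :=
  LinearMap.ker (g.mulVecLin - l • LinearMap.id)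

/-- `E(d)` is generated by its global sections -/
def Generated {n : ℕ} (E : Bundle2 n) (d : ℤ) : Prop :=
  ∀ x : Fin (n + 1) → ℂ, x ≠ 0 → ∃ G G' : Vec E, E.IsSection d G ∧ E.IsSection d G' ∧
    LinearIndependent ℂ ![evv G x, evv G' x]

theorem result {n : ℕ} (hn : 1 ≤ n) (E : Bundle2 n) (hE : ¬ E.Splits) :
    -- `c` is the first Chern class of `E`: all lines have a type `(a, b)`, and `a + b = c`
    ∃ c : ℤ, (∀ A B : Fin (n + 1) → ℂ, LinearIndependent ℂ ![A, B] →
      (∃ a b : ℤ, E.SplitsOn A B a b) ∧ ∀ a b : ℤ, E.SplitsOn A B a b → a + b = c) ∧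
    (∃ d : ℤ, Generated E d) ∧
    ∀ (g : Matrix (Fin (n + 1)) (Fin (n + 1)) ℂ) (Φ : Vec E → Vec E), IsUnit g → IsLift E g Φ →
      ∀ l m : ℂ, m ≠ l → 3 ≤ Module.finrank ℂ (eigen g l) →
      -- the types of the joining lines are congruent
      (∀ P ∈ eigen g m, P ≠ 0 → ∀ Q ∈ eigen g l, Q ≠ 0 →
        ∀ P' ∈ eigen g m, P' ≠ 0 → ∀ Q' ∈ eigen g l, Q' ≠ 0 → ∀ p q p' q' : ℤ,
        E.SplitsOn P Q p q → E.SplitsOn P' Q' p' q' →
        (m / l) ^ (q - q') = 1 ∨ (m / l) ^ (p - q') = 1) ∧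
      -- a line of large jump through every point of the second eigenspace
      (∀ P ∈ eigen g m, P ≠ 0 → ∀ P₀ ∈ eigen g m, P₀ ≠ 0 → ∀ Q₀ ∈ eigen g l, Q₀ ≠ 0 →
        ∀ p₀ q₀ : ℤ, E.SplitsOn P₀ Q₀ p₀ q₀ →
        ∃ Q ∈ eigen g l, Q ≠ 0 ∧ ∃ p q : ℤ, E.SplitsOn P Q p q ∧
        ∃ j : ℕ, 0 < j ∧ 2 * (j : ℤ) ≤ |p - q| + |p₀ - q₀| ∧ (m / l) ^ j = 1) ∧
      -- the bound for the order by the first Chern class of `E(d)`
      ∀ P ∈ eigen g m, P ≠ 0 → ∀ d : ℤ, Generated E d →
        ∃ j : ℕ, 0 < j ∧ (j : ℤ) ≤ c + 2 * d ∧ (m / l) ^ j = 1 := by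
  obtain ⟨W⟩ := H938TB.exists_wedge hn (Pool.Agent.W615.triv E)
  have hsum : ∀ {A B : Fin (n + 1) → ℂ} (_ : LinearIndependent ℂ ![A, B]) {a b : ℤ},
      E.SplitsOn A B a b → W.κ.1 = a + b := by
    intro A B hAB a b hs
    exact Pool.Agent.W467.FX.kappa_of_line W hAB hs
  refine ⟨W.κ.1, fun A B hAB => ⟨Pool.Agent.H106R3.VB.splitsOn_exists E hAB,
    fun a b hs => (hsum hAB hs).symm⟩, ?_, ?_⟩
  · obtain ⟨d, hd⟩ := Pool.Agent.W615.exists_deg W
    refine ⟨d, fun x hx => ?_⟩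
    obtain ⟨G, G', hG, hG', h⟩ := hd x hx
    exact ⟨G, G', Pool.Agent.W615.sec_iff.1 hG, Pool.Agent.W615.sec_iff.1 hG',
      (W.ind x hx G G' hG.ker hG'.ker).1 h⟩
  intro g Φ hg hΦ l m hml hl
  have hsub : ∀ p : MvPolynomial (Fin (n + 1)) ℂ, subst g p = lsub g.mulVecLin p := by
    intro p
    unfold subst lsub
    congr 2
    funext s
    refine Finset.sum_congr rfl fun t _ => ?_
    congr 2
    rw [Matrix.mulVecLin_apply, Matrix.mulVec_single_one]
    rfl
  let O : Pool.Agent.W467.FO.GOp E g.mulVecLin :=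
    { D := Φ
      sec := fun d G h => Pool.Agent.W615.sec_iff.2 (hΦ.sec d G (Pool.Agent.W615.sec_iff.1 h))
      add := fun d G G' h h' =>
        hΦ.add d G G' (Pool.Agent.W615.sec_iff.1 h) (Pool.Agent.W615.sec_iff.1 h')
      mul := by
        intro d e p G h hp
        rw [← hsub]
        exact hΦ.semi d e p G (Pool.Agent.W615.sec_iff.1 h) hp
      inj := by
        intro d G h h0 i
        have h1 := hΦ.inj d G (Pool.Agent.W615.sec_iff.1 h) (funext h0)
        rw [h1]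
        rfl }
  have hinj : Function.Injective g.mulVecLin := by
    intro x y h
    exact Matrix.mulVec_injective_iff_isUnit.2 hg h
  have he : ∀ {k : ℂ} {R : Fin (n + 1) → ℂ}, R ∈ eigen g k ↔ g.mulVecLin R = k • R := by
    intro k R
    unfold eigen
    rw [LinearMap.mem_ker, LinearMap.sub_apply, LinearMap.smul_apply, LinearMap.id_apply,
      sub_eq_zero]
  -- the two parts for ordered types
  have key := fun {P P₀ Q₀ : Fin (n + 1) → ℂ} (hP : P ∈ eigen g m) (hP0 : P ≠ 0)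
      (hP₀ : P₀ ∈ eigen g m) (hP₀0 : P₀ ≠ 0) (hQ₀ : Q₀ ∈ eigen g l) (hQ₀0 : Q₀ ≠ 0)
      {p₀ q₀ : ℤ} (hq : q₀ ≤ p₀) (hs : E.SplitsOn P₀ Q₀ p₀ q₀) =>
    Pool.Agent.W467.LO.main O hinj hE hl hP0 (he.1 hP) hml hP₀0 (he.1 hP₀) hQ₀0 (he.1 hQ₀) hq hs
  have hli : ∀ {P Q : Fin (n + 1) → ℂ}, P ∈ eigen g m → P ≠ 0 → Q ∈ eigen g l → Q ≠ 0 →
      LinearIndependent ℂ ![P, Q] := by
    intro P Q hP hP0 hQ hQ0
    rw [LinearIndependent.pair_iff]
    intro a b hab
    have h1 := congrArg g.mulVecLin hab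
    rw [map_add, map_smul, map_smul, he.1 hP, he.1 hQ, map_zero] at h1
    have h2 : (a * (m - l)) • P = 0 := by
      have h3 : (a * (m - l)) • P = (a • m • P + b • l • Q) - l • (a • P + b • Q) := by
        module
      rw [h3, h1, hab, smul_zero, sub_zero]
    have h4 : a * (m - l) = 0 := (smul_eq_zero.1 h2).resolve_right hP0
    have h5 : a = 0 := (mul_eq_zero.1 h4).resolve_right (sub_ne_zero.2 hml)
    rw [h5, zero_smul, zero_add] at hab
    exact ⟨h5, (smul_eq_zero.1 hab).resolve_right hQ0⟩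
  have ord : ∀ {P Q : Fin (n + 1) → ℂ} {p q : ℤ}, E.SplitsOn P Q p q →
      E.SplitsOn P Q (max p q) (min p q) := by
    intro P Q p q hs
    rcases le_total q p with h | h
    · rw [max_eq_left h, min_eq_right h]
      exact hs
    · rw [max_eq_right h, min_eq_left h]
      exact Pool.Agent.W467.LO.splitsOn_swap hs
  refine ⟨?_, ?_, ?_⟩
  · intro P hP hP0 Q hQ hQ0 P' hP' hP0' Q' hQ' hQ0' p q p' q' hs hs'
    have c1 := hsum (hli hP hP0 hQ hQ0) hs
    have c2 := hsum (hli hP' hP0' hQ' hQ0') hs'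
    have h1 := (key hP hP0 hP' hP0' hQ' hQ0' (min_le_max) (ord hs')).1 Q hQ0 (he.1 hQ) _ _
      (min_le_max) (ord hs)
    have inv : ∀ {x : ℂ} {i : ℤ}, x ^ i = 1 → x ^ (-i) = 1 := fun {x i} h => by
      rw [zpow_neg, h, inv_one]
    rcases le_total q p with h | h <;> rcases le_total q' p' with h' | h'
    · rw [max_eq_left h, min_eq_right h, min_eq_right h'] at h1
      exact h1
    · rw [max_eq_left h, min_eq_right h, min_eq_left h'] at h1
      rcases h1 with h1 | h1
      · right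
        have := inv h1
        have e : -(q - p') = p - q' := by omega
        rwa [e] at this
      · left
        have := inv h1
        have e : -(p - p') = q - q' := by omega
        rwa [e] at this
    · rw [max_eq_right h, min_eq_left h, min_eq_right h'] at h1
      exact h1.symm
    · rw [max_eq_right h, min_eq_left h, min_eq_left h'] at h1
      rcases h1 with h1 | h1
      · left
        have := inv h1
        have e : -(p - p') = q - q' := by omega
        rwa [e] at this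
      · right
        have := inv h1
        have e : -(q - p') = p - q' := by omega
        rwa [e] at this
  · intro P hP hP0 P₀ hP₀ hP₀0 Q₀ hQ₀ hQ₀0 p₀ q₀ hs
    obtain ⟨Q, hQ0, hQ, p, q, hqp, hs', j, hj, hj', hj1⟩ :=
      (key hP hP0 hP₀ hP₀0 hQ₀ hQ₀0 (min_le_max) (ord hs)).2
    refine ⟨Q, he.2 hQ, hQ0, p, q, hs', j, hj, ?_, hj1⟩
    rw [abs_of_nonneg (by omega : 0 ≤ p - q)]
    rcases le_total q₀ p₀ with h | h
    · rw [max_eq_left h, min_eq_right h] at hj'
      rw [abs_of_nonneg (by omega : 0 ≤ p₀ - q₀)]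
      exact hj'
    · rw [max_eq_right h, min_eq_left h] at hj'
      rw [abs_of_nonpos (by omega : p₀ - q₀ ≤ 0)]
      omega
  · intro P hP hP0 d hd
    obtain ⟨Q₀, hQ₀, hQ₀0⟩ : ∃ Q₀ ∈ eigen g l, Q₀ ≠ 0 := by
      apply Submodule.exists_mem_ne_zero_of_ne_bot
      intro h0
      rw [h0, finrank_bot] at hl
      omega
    obtain ⟨p', q', hs'⟩ := Pool.Agent.H106R3.VB.splitsOn_exists E (hli hP hP0 hQ₀ hQ₀0)
    obtain ⟨Q, hQ0, hQ, p, q, hqp, hs, j, hj, hj', hj1⟩ :=
      (key hP hP0 hP hP0 hQ₀ hQ₀0 (min_le_max) (ord hs')).2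
    have gen : ∃ G G' : H938TB.Vec E.a n, Pool.Agent.W615.Sec E d G ∧
        Pool.Agent.W615.Sec E d G' ∧ LinearIndependent ℂ ![evv G P, evv G' P] := by
      obtain ⟨G, G', hG, hG', h⟩ := hd P hP0
      exact ⟨G, G', Pool.Agent.W615.sec_iff.2 hG, Pool.Agent.W615.sec_iff.2 hG', h⟩
    have l1 := Pool.Agent.W467.LO.low W (hli hP hP0 (he.2 hQ) hQ0) gen hs
    have l2 := Pool.Agent.W467.LO.low W (hli hP hP0 hQ₀ hQ₀0) gen (ord hs')
    have c1 := hsum (hli hP hP0 (he.2 hQ) hQ0) hs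
    have c2 := hsum (hli hP hP0 hQ₀ hQ₀0) (ord hs')
    exact ⟨j, hj, by omega, hj1⟩

end Pool.Agent.Results.MP_745d3a_ag.FiniteSymmetry
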