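import Pool.Agent.W615.X10

/-!
# Rank two bundles on `P^n`, `n ≥ 3`, and vector fields with a triple eigenvalue

Let `N` be a matrix with an eigenvalue of algebraic multiplicity at least three and at least one
other eigenvalue.  If the linear vector field `x ↦ N x` lifts to the rank two bundle `E` on `P^n`,
`n ≥ 3`, then `E` splits.
-/

set_option autoImplicit false

namespace Pool.Agent.Results.MP_745d3a_ag.TripleEigenvalue

open MvPolynomial H960VB

/-- the vectors of polynomials -/
abbrev Vec {n : ℕ} (E : Bundle2 n) : Type := Fin E.a → MvPolynomial (Fin (n + 1)) ℂ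

/-- the derivative of `p` in the direction of the linear vector field `x ↦ N x` -/
noncomputable def along {n : ℕ} (N : Matrix (Fin (n + 1)) (Fin (n + 1)) ℂ)
    (p : MvPolynomial (Fin (n + 1)) ℂ) : MvPolynomial (Fin (n + 1)) ℂ :=
  ∑ s, pderiv s p * (∑ t, C (N s t) * X t)

/-- `D` is a lift to `E` of the vector field `x ↦ N x`: an operator on the sections of the twists
`E(d)`, `d ∈ ℤ`, which preserves `d`, is additive and satisfies
`D (p G) = N(p) G + p D G` for all homogeneous polynomials `p`. -/
structure IsLift {n : ℕ} (E : Bundle2 n) (N : Matrix (Fin (n + 1)) (Fin (n + 1)) ℂ)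
    (D : Vec E → Vec E) : Prop where
  sec : ∀ d G, E.IsSection d G → E.IsSection d (D G)
  add : ∀ d G G', E.IsSection d G → E.IsSection d G' → D (G + G') = D G + D G'
  leib : ∀ d e p G, E.IsSection d G → HomZ p e → D (p • G) = along N p • G + p • D G

/-- the dimension of `ker (N - l)^j` -/
noncomputable def kerDim {n : ℕ} (N : Matrix (Fin (n + 1)) (Fin (n + 1)) ℂ) (l : ℂ) (j : ℕ) : ℕ :=
  Module.finrank ℂ (LinearMap.ker ((N - Matrix.scalar (Fin (n + 1)) l).mulVecLin ^ j))

theorem result {n : ℕ} (hn : 3 ≤ n) (E : Bundle2 n) (N : Matrix (Fin (n + 1)) (Fin (n + 1)) ℂ)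
    (D : Vec E → Vec E) (hD : IsLift E N D)
    -- an eigenvalue of algebraic multiplicity at least three
    (l : ℂ) (j : ℕ) (hl : 3 ≤ kerDim N l j)
    -- and another eigenvalue
    (m : ℂ) (v : Fin (n + 1) → ℂ) (hm : m ≠ l) (hv : v ≠ 0) (hNv : N.mulVec v = m • v) :
    E.Splits := by
  refine Pool.Agent.W615.triple hn (Pool.Agent.W615.mkOp D hD.sec hD.add hD.leib) hl ?_
  rintro ⟨k, hk⟩
  have h1 : ∀ i : ℕ, ((N - Matrix.scalar (Fin (n + 1)) l) ^ i).mulVec v = (m - l) ^ i • v := by
    intro i
    induction i with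
    | zero => rw [pow_zero, pow_zero, Matrix.one_mulVec, one_smul]
    | succ i ih =>
      have h2 : (N - Matrix.scalar (Fin (n + 1)) l).mulVec v = (m - l) • v := by
        rw [Matrix.sub_mulVec, hNv, sub_smul]
        congr 1
        funext s
        rw [Matrix.scalar_apply, Matrix.mulVec_diagonal, Pi.smul_apply, smul_eq_mul]
      rw [pow_succ, ← Matrix.mulVec_mulVec, h2, Matrix.mulVec_smul, ih, smul_smul, ← pow_succ']
  have h2 := h1 k
  rw [hk, Matrix.zero_mulVec] at h2
  rcases smul_eq_zero.1 h2.symm with h3 | h3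
  · exact pow_ne_zero k (sub_ne_zero.2 hm) h3
  · exact hv h3

end Pool.Agent.Results.MP_745d3a_ag.TripleEigenvalue
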